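import Pool.Agent.R481.EX.Law

/-! # Asymptotics -/

set_option autoImplicit false

namespace Pool.Agent.R481.EX

open Finset MeasureTheory Filter Topology

/-- the scale of the slow bond -/
noncomputable def JJ (γ : ℝ) (N : ℕ) : ℕ := ⌈γ * Real.logb 4 N⌉₊

theorem log_four : 1 ≤ Real.log 4 := by
  have h1 : Real.log 4 = 2 * Real.log 2 := by
    rw [show (4 : ℝ) = 2 ^ 2 by norm_num, Real.log_pow]; norm_num
  have := Real.log_two_gt_d9
  rw [h1]
  linarith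

theorem logb_nonneg (N : ℕ) (hN : 1 ≤ N) : 0 ≤ Real.logb 4 N :=
  Real.logb_nonneg (by norm_num) (by exact_mod_cast hN)

theorem rpow_logb' (γ : ℝ) (N : ℕ) (hN : 1 ≤ N) :
    (4 : ℝ) ^ (γ * Real.logb 4 N) = (N : ℝ) ^ γ := by
  rw [mul_comm, Real.rpow_mul (by norm_num), Real.rpow_logb (by norm_num) (by norm_num)]
  exact_mod_cast hN

theorem JJ_lower (γ : ℝ) (N : ℕ) (hN : 1 ≤ N) : (N : ℝ) ^ γ ≤ 4 ^ (JJ γ N) := by
  rw [← rpow_logb' γ N hN, ← Real.rpow_natCast]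
  exact Real.rpow_le_rpow_of_exponent_le (by norm_num) (Nat.le_ceil _)

theorem JJ_upper (γ : ℝ) (hγ : 0 ≤ γ) (N : ℕ) (hN : 1 ≤ N) :
    (4 : ℝ) ^ (JJ γ N) ≤ 4 * (N : ℝ) ^ γ := by
  have h1 : (JJ γ N : ℝ) ≤ γ * Real.logb 4 N + 1 :=
    (Nat.ceil_lt_add_one (mul_nonneg hγ (logb_nonneg N hN))).le
  calc (4 : ℝ) ^ (JJ γ N) = (4 : ℝ) ^ (JJ γ N : ℝ) := (Real.rpow_natCast _ _).symm
    _ ≤ (4 : ℝ) ^ (γ * Real.logb 4 N + 1) := Real.rpow_le_rpow_of_exponent_le (by norm_num) h1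
    _ = 4 * (N : ℝ) ^ γ := by
      rw [Real.rpow_add (by norm_num), rpow_logb' γ N hN, Real.rpow_one]; ring

theorem JJ_log (γ : ℝ) (hγ : 0 ≤ γ) (hγ1 : γ ≤ 1) (N : ℕ) (hN : 1 ≤ N) :
    (JJ γ N : ℝ) ≤ Real.log N + 1 := by
  have h1 : (JJ γ N : ℝ) ≤ γ * Real.logb 4 N + 1 :=
    (Nat.ceil_lt_add_one (mul_nonneg hγ (logb_nonneg N hN))).le
  have h2 : Real.logb 4 N ≤ Real.log N := by
    unfold Real.logb
    exact div_le_self (Real.log_natCast_nonneg N) log_four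
  have h3 := logb_nonneg N hN
  nlinarith

theorem q_lower (γ ε s : ℝ) (hγ : 0 ≤ γ) (hγ1 : γ < 1) (hε : 0 < ε) (hs : 0 < s)
    (hs4 : s = (1 - γ) / 4) (N n : ℕ) (hN : 1 ≤ N) (hn : ε * N / 6 ≤ n) :
    ε / (48 * (1 / s + 3) ^ 2) * (N : ℝ) ^ (2 * s) ≤ qr (JJ γ N) * n := by
  have hN0 : (0 : ℝ) < N := by exact_mod_cast hN
  have hN1 : (1 : ℝ) ≤ N := by exact_mod_cast hN
  obtain ⟨L, hL⟩ : ∃ L : ℝ, L = (1 / s + 3) * (N : ℝ) ^ s := ⟨_, rfl⟩
  have hs1 : 1 ≤ (N : ℝ) ^ s := Real.one_le_rpow hN1 hs.le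
  have h1 : Real.log N + 3 ≤ L := by
    have h2 := Real.log_le_rpow_div hN0.le hs
    rw [hL, add_mul, one_div, inv_mul_eq_div]
    linarith
  have h2 : ((JJ γ N : ℝ) + 1) * ((JJ γ N : ℝ) + 2) ≤ L ^ 2 := by
    have h3 := JJ_log γ hγ hγ1.le N hN
    have h4 : (0 : ℝ) ≤ JJ γ N := by positivity
    nlinarith
  have h3 := JJ_upper γ hγ N hN
  have hLpos : 0 < L := by rw [hL]; positivity
  have h4 : 2 * (4 : ℝ) ^ (JJ γ N) * (((JJ γ N : ℝ) + 1) * ((JJ γ N : ℝ) + 2)) ≤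
      2 * (4 * (N : ℝ) ^ γ) * L ^ 2 := by
    apply mul_le_mul _ h2 (by positivity) (by positivity)
    linarith
  have h5 : 1 / (2 * (4 * (N : ℝ) ^ γ) * L ^ 2) ≤ qr (JJ γ N) := by
    unfold qr
    exact one_div_le_one_div_of_le (by positivity) h4
  have h6 : (N : ℝ) ^ (2 * s) * ((N : ℝ) ^ γ * ((N : ℝ) ^ s) ^ 2) = N := by
    rw [← Real.rpow_natCast ((N : ℝ) ^ s) 2, ← Real.rpow_mul hN0.le, ← Real.rpow_add hN0,
      ← Real.rpow_add hN0]
    have : 2 * s + (γ + s * ((2 : ℕ) : ℝ)) = 1 := by push_cast; rw [hs4]; ring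
    rw [this, Real.rpow_one]
  calc ε / (48 * (1 / s + 3) ^ 2) * (N : ℝ) ^ (2 * s)
      = 1 / (2 * (4 * (N : ℝ) ^ γ) * L ^ 2) * (ε * N / 6) := by
        rw [hL]
        have hg : (0 : ℝ) < (N : ℝ) ^ γ := Real.rpow_pos_of_pos hN0 _
        have hss : (0 : ℝ) < (N : ℝ) ^ s := by linarith
        have hc : (0 : ℝ) < 1 / s + 3 := by positivity
        have key : ∀ A B D M K : ℝ, 0 < A → 0 < B → 0 < K → D * (A * B ^ 2) = M →
            ε / (48 * K ^ 2) * D = 1 / (2 * (4 * A) * (K * B) ^ 2) * (ε * M / 6) := by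
          intro A B D M K hA hB hK hM
          rw [← hM]
          field_simp
          ring
        exact key _ _ _ _ _ hg hss hc h6
    _ ≤ qr (JJ γ N) * n := by
        apply mul_le_mul h5 hn (by positivity) (qr_pos _).le

/-- mixing times below `N ^ β`, `β < 2`, are unlikely -/
theorem main_tendsto (ε : ℝ) (hε : 0 < ε) (k : ℕ → ℕ)
    (hk : ∀ᶠ N : ℕ in atTop, ε * N ≤ k N ∧ ε * N ≤ (N : ℝ) - k N) (β : ℝ) (hβ : β < 2) :
    Tendsto (fun N : ℕ => mixProb mu N (k N) ((N : ℝ) ^ β)) atTop (𝓝 0) := by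
  obtain ⟨γ, hγ⟩ : ∃ γ : ℝ, γ = max (β - 1) 0 / 2 + 1 / 2 := ⟨_, rfl⟩
  have hγ0 : 0 ≤ γ := by
    have := le_max_right (β - 1) 0
    linarith
  have hγ1 : γ < 1 := by
    have : max (β - 1) 0 < 1 := max_lt (by linarith) (by norm_num)
    linarith
  have hγβ : β < 1 + γ := by
    have := le_max_left (β - 1) 0
    have h2 := le_max_right (β - 1) 0
    have : max (β - 1) 0 < 1 := max_lt (by linarith) (by norm_num)
    linarith
  obtain ⟨s, hs⟩ : ∃ s : ℝ, s = (1 - γ) / 4 := ⟨_, rfl⟩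
  have hs0 : 0 < s := by rw [hs]; linarith
  obtain ⟨c, hc⟩ : ∃ c : ℝ, c = ε / (48 * (1 / s + 3) ^ 2) := ⟨_, rfl⟩
  have hc0 : 0 < c := by rw [hc]; positivity
  have hcast : Tendsto (fun N : ℕ => (N : ℝ)) atTop atTop := tendsto_natCast_atTop_atTop
  have hbig : ∀ᶠ N : ℕ in atTop, 6 / ε < ((N : ℕ) : ℝ) ^ (1 + γ - β) :=
    ((tendsto_rpow_atTop (by linarith)).comp hcast).eventually_gt_atTop _
  have hbig2 : ∀ᶠ N : ℕ in atTop, 6 / ε ≤ (N : ℝ) := hcast.eventually_ge_atTop _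
  have hub : ∀ᶠ N : ℕ in atTop, mixProb mu N (k N) ((N : ℝ) ^ β) ≤
      ENNReal.ofReal (2 * Real.exp (-(c * (N : ℝ) ^ (2 * s)))) := by
    filter_upwards [hk, hbig, hbig2, eventually_ge_atTop 1] with N hkN hN1 hN2 hN3
    have hN0 : (0 : ℝ) < N := by exact_mod_cast hN3
    have hkle : k N ≤ N := by
      have h1 : (0 : ℝ) ≤ (N : ℝ) - k N := le_trans (by positivity) hkN.2
      have h2 : (k N : ℝ) ≤ N := by linarith
      exact_mod_cast h2
    obtain ⟨n, hn⟩ : ∃ n : ℕ, n = min (k N) (N - k N) / 3 := ⟨_, rfl⟩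
    have h3 : 3 * n ≤ k N := by
      have : min (k N) (N - k N) ≤ k N := min_le_left _ _
      omega
    have h4 : 3 * n + k N ≤ N := by
      have : min (k N) (N - k N) ≤ N - k N := min_le_right _ _
      omega
    have h5 : ε * N ≤ 3 * ((n : ℝ) + 1) := by
      have h6 : min (k N) (N - k N) ≤ 3 * (n + 1) := by omega
      have h7 : ε * N ≤ ((min (k N) (N - k N) : ℕ) : ℝ) := by
        rcases min_choice (k N) (N - k N) with h | h
        · rw [h]; exact hkN.1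
        · rw [h, Nat.cast_sub hkle]; exact hkN.2
      have h8 : ((min (k N) (N - k N) : ℕ) : ℝ) ≤ ((3 * (n + 1) : ℕ) : ℝ) := by
        exact_mod_cast h6
      push_cast at h8 ⊢
      push_cast at h7
      linarith
    have h6 : ε * N / 6 ≤ n := by
      have : 6 ≤ ε * N := by
        rw [div_le_iff₀ hε] at hN2
        linarith
      linarith
    have hJ := JJ_lower γ N hN3
    have ha : (N : ℝ) ^ β < ((n : ℝ) + 1) * 4 ^ (JJ γ N) / 2 := by
      have hb : (0 : ℝ) < (N : ℝ) ^ β := Real.rpow_pos_of_pos hN0 _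
      have hg : (0 : ℝ) < (N : ℝ) ^ γ := Real.rpow_pos_of_pos hN0 _
      have h7 : (N : ℝ) ^ (1 + γ - β) * (N : ℝ) ^ β = N * (N : ℝ) ^ γ := by
        rw [← Real.rpow_add hN0, sub_add_cancel, Real.rpow_add hN0, Real.rpow_one]
      have h8 : 6 / ε * (N : ℝ) ^ β < N * (N : ℝ) ^ γ := by
        rw [← h7]
        exact mul_lt_mul_of_pos_right hN1 hb
      have h9 : (N : ℝ) ^ β < ε / 6 * (N * (N : ℝ) ^ γ) := by
        have := mul_lt_mul_of_pos_left h8 (show (0 : ℝ) < ε / 6 by positivity)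
        calc (N : ℝ) ^ β = ε / 6 * (6 / ε * (N : ℝ) ^ β) := by field_simp
          _ < _ := this
      calc (N : ℝ) ^ β < ε / 6 * (N * (N : ℝ) ^ γ) := h9
        _ = (ε * N / 3) * (N : ℝ) ^ γ / 2 := by ring
        _ ≤ ((n : ℝ) + 1) * 4 ^ (JJ γ N) / 2 := by
          apply div_le_div_of_nonneg_right _ (by norm_num)
          apply mul_le_mul (by linarith) hJ hg.le (by positivity)
    refine (mix_bound N (k N) n (JJ γ N) h3 h4 _ ha).trans ?_
    apply ENNReal.ofReal_le_ofReal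
    have h10 := q_lower γ ε s hγ0 hγ1 hε hs0 hs N n hN3 h6
    rw [← hc] at h10
    have : Real.exp (-(qr (JJ γ N) * n)) ≤ Real.exp (-(c * (N : ℝ) ^ (2 * s))) :=
      Real.exp_le_exp.2 (by linarith)
    linarith
  have hlim : Tendsto (fun N : ℕ => ENNReal.ofReal (2 * Real.exp (-(c * (N : ℝ) ^ (2 * s)))))
      atTop (𝓝 0) := by
    have h1 : Tendsto (fun N : ℕ => c * (N : ℝ) ^ (2 * s)) atTop atTop :=
      ((tendsto_rpow_atTop (by linarith)).comp hcast).const_mul_atTop hc0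
    have h2 : Tendsto (fun N : ℕ => 2 * Real.exp (-(c * (N : ℝ) ^ (2 * s)))) atTop
        (𝓝 (2 * 0)) := (Real.tendsto_exp_neg_atTop_nhds_zero.comp h1).const_mul 2
    rw [mul_zero] at h2
    have h3 := ENNReal.tendsto_ofReal h2
    rwa [ENNReal.ofReal_zero] at h3
  exact tendsto_of_tendsto_of_tendsto_of_le_of_le' tendsto_const_nhds hlim
    (Eventually.of_forall fun _ => zero_le) hub

/-- the constants times `N ^ (3/2)` -/
theorem three_half (ε : ℝ) (hε : 0 < ε) (k : ℕ → ℕ)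
    (hk : ∀ᶠ N : ℕ in atTop, ε * N ≤ k N ∧ ε * N ≤ (N : ℝ) - k N) (C : ℝ) :
    Tendsto (fun N : ℕ => mixProb mu N (k N) (C * (N : ℝ) ^ (3 / 2 : ℝ))) atTop (𝓝 0) := by
  have h1 := main_tendsto ε hε k hk (7 / 4) (by norm_num)
  have hcast : Tendsto (fun N : ℕ => (N : ℝ)) atTop atTop := tendsto_natCast_atTop_atTop
  have h2 : ∀ᶠ N : ℕ in atTop, C ≤ ((N : ℕ) : ℝ) ^ (1 / 4 : ℝ) :=
    ((tendsto_rpow_atTop (by norm_num)).comp hcast).eventually_ge_atTop _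
  refine tendsto_of_tendsto_of_tendsto_of_le_of_le' tendsto_const_nhds h1
    (Eventually.of_forall fun _ => zero_le) ?_
  filter_upwards [h2, eventually_ge_atTop 1] with N hN hN1
  have hN0 : (0 : ℝ) < N := by exact_mod_cast hN1
  have h3 : C * (N : ℝ) ^ (3 / 2 : ℝ) ≤ (N : ℝ) ^ (7 / 4 : ℝ) := by
    have h4 : (N : ℝ) ^ (7 / 4 : ℝ) = (N : ℝ) ^ (1 / 4 : ℝ) * (N : ℝ) ^ (3 / 2 : ℝ) := by
      rw [← Real.rpow_add hN0]
      norm_num
    rw [h4]
    exact mul_le_mul_of_nonneg_right hN (Real.rpow_pos_of_pos hN0 _).le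
  unfold mixProb
  refine measure_mono fun ω hω => ?_
  exact le_trans (show tmix (k N) ω ≤ _ from hω) (ENNReal.ofReal_le_ofReal h3)

end Pool.Agent.R481.EX
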