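import Mathlib

/-! # The simple exclusion process in a random environment and its mixing time -/

set_option autoImplicit false

namespace Pool.Agent.R481.EX

open Finset MeasureTheory Filter Topology

/-- The configurations with exactly `k` particles on the `N` sites, written as the set of occupied
sites.  The sites are `0, ..., N - 1` (site `i` of the text is `i - 1` here). -/
abbrev Cfg (N k : ℕ) : Type := {s : Finset (Fin N) // s.card = k}

/-- The rate at which a particle at `x` tries to jump to `y` in the environment `ω`: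
`ω x` for `y = x + 1`, `1 - ω x` for `y = x - 1`, and `0` for the other `y`. -/
noncomputable def jump {N : ℕ} (ω : Fin N → ℝ) (x y : Fin N) : ℝ :=
  if (y : ℕ) = x + 1 then ω x else if (y : ℕ) + 1 = x then 1 - ω x else 0

/-- The rate of the transition `η → ξ` of the exclusion process: `ξ` is `η` with one particle
moved from the occupied site `x` to the empty site `y`. -/
noncomputable def rate {N k : ℕ} (ω : Fin N → ℝ) (η ξ : Cfg N k) : ℝ :=
  ∑ x : Fin N, ∑ y : Fin N,
    if x ∈ η.1 ∧ y ∉ η.1 ∧ ξ.1 = insert y (η.1.erase x) then jump ω x y else 0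

/-- The generator matrix (Q-matrix) of the process. -/
noncomputable def gen {N k : ℕ} (ω : Fin N → ℝ) : Matrix (Cfg N k) (Cfg N k) ℝ :=
  fun η ξ => rate ω η ξ - if η = ξ then ∑ ζ, rate ω η ζ else 0

/-- The transition probabilities: `law ω t η ξ` is the probability that the process started
from `η` is at `ξ` at time `t`; the matrix is the exponential of `t` times the generator. -/
noncomputable def law {N k : ℕ} (ω : Fin N → ℝ) (t : ℝ) (η ξ : Cfg N k) : ℝ :=
  (NormedSpace.exp (t • (gen ω : Matrix (Cfg N k) (Cfg N k) ℝ))) η ξ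

/-- `π` is a stationary probability distribution. -/
def IsStat {N k : ℕ} (ω : Fin N → ℝ) (π : Cfg N k → ℝ) : Prop :=
  (∀ ξ, 0 ≤ π ξ) ∧ ∑ ξ, π ξ = 1 ∧ ∀ ξ, ∑ η, π η * gen ω η ξ = 0

/-- The total variation distance. -/
noncomputable def tv {N k : ℕ} (p q : Cfg N k → ℝ) : ℝ := (∑ ξ, |p ξ - q ξ|) / 2

/-- The mixing time (with values in `[0, ∞]`): the infimum of the times `t ≥ 0` at which the
maximal total variation distance to a stationary distribution is at most `1/4`. -/
noncomputable def tmix {N : ℕ} (k : ℕ) (ω : Fin N → ℝ) : ENNReal :=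
  ⨅ (t : ℝ) (_ : 0 ≤ t ∧ ∃ π : Cfg N k → ℝ, IsStat ω π ∧ ∀ η : Cfg N k,
    tv (law ω t η) π ≤ 1 / 4), ENNReal.ofReal t

/-- `μ` is the law of one environment variable: a probability measure carried by `[0, 1]`. -/
def IsEnv (μ : Measure ℝ) : Prop :=
  IsProbabilityMeasure μ ∧ ∀ᵐ w ∂μ, w ∈ Set.Icc (0 : ℝ) 1

/-- The environment is ballistic: the mean of `(1 - ω) / ω` is less than `1`. -/
def Ballistic (μ : Measure ℝ) : Prop :=
  ∫⁻ w, ENNReal.ofReal (1 - w) / ENNReal.ofReal w ∂μ < 1

/-- The law of an i.i.d. environment on the `N` sites. -/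
noncomputable def envLaw (μ : Measure ℝ) (N : ℕ) : Measure (Fin N → ℝ) :=
  Measure.pi fun _ : Fin N => μ

/-- The probability that the mixing time of the exclusion process with `k` particles on `N` sites
is at most `a`. -/
noncomputable def mixProb (μ : Measure ℝ) (N k : ℕ) (a : ℝ) : ENNReal :=
  envLaw μ N {ω | tmix k ω ≤ ENNReal.ofReal a}

end Pool.Agent.R481.EX
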