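import Pool.Agent.R481.EX.Mat
import Pool.Agent.R481.EX.Defs

/-! # The deterministic lower bound for the mixing time -/

set_option autoImplicit false

namespace Pool.Agent.R481.EX

open Finset

variable {N k : ℕ}

theorem jump_nonneg (ω : Fin N → ℝ) (hω : ∀ y, 0 ≤ ω y ∧ ω y ≤ 1) (x y : Fin N) :
    0 ≤ jump ω x y := by
  unfold jump
  split_ifs
  · exact (hω x).1
  · linarith [(hω x).2]
  · exact le_rfl

theorem rate_nonneg (ω : Fin N → ℝ) (hω : ∀ y, 0 ≤ ω y ∧ ω y ≤ 1) (η ξ : Cfg N k) :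
    0 ≤ rate ω η ξ := by
  unfold rate
  refine Finset.sum_nonneg fun x _ => Finset.sum_nonneg fun y _ => ?_
  split_ifs
  · exact jump_nonneg ω hω x y
  · exact le_rfl

theorem gen_off (ω : Fin N → ℝ) (hω : ∀ y, 0 ≤ ω y ∧ ω y ≤ 1) (η ξ : Cfg N k) (h : η ≠ ξ) :
    0 ≤ gen ω η ξ := by
  unfold gen
  rw [if_neg h, sub_zero]
  exact rate_nonneg ω hω η ξ

theorem gen_row (ω : Fin N → ℝ) (η : Cfg N k) : ∑ ξ, gen ω η ξ = 0 := by
  unfold gen
  rw [Finset.sum_sub_distrib, Finset.sum_ite_eq]
  simp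

/-- the configuration after the move `x → y` -/
def mv (η : Cfg N k) (x y : Fin N) (hx : x ∈ η.1) (hy : y ∉ η.1) : Cfg N k :=
  ⟨insert y (η.1.erase x), by
    rw [Finset.card_insert_of_notMem (fun h => hy (Finset.mem_of_mem_erase h)),
      Finset.card_erase_of_mem hx, η.2]
    have : 0 < k := by rw [← η.2]; exact Finset.card_pos.2 ⟨x, hx⟩
    omega⟩

theorem rate_sum (ω : Fin N → ℝ) (η : Cfg N k) (F : Cfg N k → ℝ) :
    ∑ ξ, rate ω η ξ * F ξ = ∑ x : Fin N, ∑ y : Fin N,
      if h : x ∈ η.1 ∧ y ∉ η.1 then jump ω x y * F (mv η x y h.1 h.2) else 0 := by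
  unfold rate
  simp only [Finset.sum_mul]
  rw [Finset.sum_comm]
  refine Finset.sum_congr rfl fun x _ => ?_
  rw [Finset.sum_comm]
  refine Finset.sum_congr rfl fun y _ => ?_
  by_cases h : x ∈ η.1 ∧ y ∉ η.1
  · rw [dif_pos h, Finset.sum_eq_single (mv η x y h.1 h.2)]
    · rw [if_pos ⟨h.1, h.2, rfl⟩]
    · intro ξ _ hξ
      rw [if_neg, zero_mul]
      rintro ⟨_, _, h3⟩
      exact hξ (Subtype.ext h3)
    · intro h'
      exact absurd (Finset.mem_univ _) h'
  · rw [dif_neg h]
    refine Finset.sum_eq_zero fun ξ _ => ?_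
    rw [if_neg, zero_mul]
    rintro ⟨h1, h2, _⟩
    exact h ⟨h1, h2⟩

/-- the generator applied to a function -/
theorem gen_mulVec (ω : Fin N → ℝ) (η : Cfg N k) (F : Cfg N k → ℝ) :
    ((gen ω : Matrix (Cfg N k) (Cfg N k) ℝ).mulVec F) η = ∑ x : Fin N, ∑ y : Fin N,
      if h : x ∈ η.1 ∧ y ∉ η.1 then jump ω x y * (F (mv η x y h.1 h.2) - F η) else 0 := by
  have h1 : ((gen ω : Matrix (Cfg N k) (Cfg N k) ℝ).mulVec F) η =
      ∑ ξ, rate ω η ξ * F ξ - ∑ ξ, rate ω η ξ * F η := by
    simp only [Matrix.mulVec, dotProduct, gen, sub_mul, Finset.sum_sub_distrib]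
    congr 1
    rw [← Finset.sum_mul]
    simp
  rw [h1, rate_sum, rate_sum ω η (fun _ => F η), ← Finset.sum_sub_distrib]
  refine Finset.sum_congr rfl fun x _ => ?_
  rw [← Finset.sum_sub_distrib]
  refine Finset.sum_congr rfl fun y _ => ?_
  split_ifs
  · ring
  · ring

/-- number of particles at the sites up to `x` -/
def cnt (x : Fin N) (η : Cfg N k) : ℕ := (η.1.filter (fun y => y ≤ x)).card

theorem cnt_le (x : Fin N) (η : Cfg N k) : cnt x η ≤ (x : ℕ) + 1 := by
  unfold cnt
  calc (η.1.filter (fun y => y ≤ x)).card ≤ (Finset.Iic x).card := by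
        refine Finset.card_le_card fun y hy => ?_
        rw [Finset.mem_filter] at hy
        exact Finset.mem_Iic.2 hy.2
    _ = (x : ℕ) + 1 := Fin.card_Iic x

theorem cnt_mv (x : Fin N) (η : Cfg N k) (a b : Fin N) (ha : a ∈ η.1) (hb : b ∉ η.1) :
    (cnt x (mv η a b ha hb) : ℤ) - cnt x η =
      (if b ≤ x then 1 else 0) - (if a ≤ x then 1 else 0) := by
  have hab : b ∉ η.1.erase a := fun h => hb (Finset.mem_of_mem_erase h)
  have h1 : cnt x (mv η a b ha hb) = (if b ≤ x then 1 else 0) +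
      ((η.1.erase a).filter (fun y => y ≤ x)).card := by
    unfold cnt mv
    simp only [Finset.filter_insert]
    split_ifs with h
    · rw [Finset.card_insert_of_notMem (fun h' => hab (Finset.mem_filter.1 h').1)]
      ring
    · simp
  have h2 : cnt x η = (if a ≤ x then 1 else 0) +
      ((η.1.erase a).filter (fun y => y ≤ x)).card := by
    unfold cnt
    conv_lhs => rw [← Finset.insert_erase ha]
    rw [Finset.filter_insert]
    split_ifs with h
    · rw [Finset.card_insert_of_notMem (fun h' =>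
        Finset.notMem_erase a η.1 (Finset.mem_filter.1 h').1)]
      ring
    · simp
  rw [h1, h2]
  push_cast
  ring

/-- the left count decreases only through the bond right of `x` -/
theorem gen_cnt (ω : Fin N → ℝ) (hω : ∀ y, 0 ≤ ω y ∧ ω y ≤ 1) (x : Fin N) (η : Cfg N k) :
    -ω x ≤ ((gen ω : Matrix (Cfg N k) (Cfg N k) ℝ).mulVec (fun η => (cnt x η : ℝ))) η := by
  rw [gen_mulVec]
  have h1 : ∀ a b : Fin N, (if a = x ∧ (b : ℕ) = x + 1 then -ω x else 0) ≤
      if h : a ∈ η.1 ∧ b ∉ η.1 then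
        jump ω a b * ((cnt x (mv η a b h.1 h.2) : ℝ) - (cnt x η : ℝ)) else 0 := by
    intro a b
    by_cases h : a ∈ η.1 ∧ b ∉ η.1
    · rw [dif_pos h]
      have h2 : ((cnt x (mv η a b h.1 h.2) : ℝ) - (cnt x η : ℝ)) =
          (if b ≤ x then 1 else 0) - (if a ≤ x then 1 else 0) := by
        have := cnt_mv x η a b h.1 h.2
        have h3 := congrArg (fun z : ℤ => (z : ℝ)) this
        push_cast at h3
        exact h3
      rw [h2]
      have hj := jump_nonneg ω hω a b
      by_cases hc : a = x ∧ (b : ℕ) = x + 1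
      · rw [if_pos hc]
        obtain ⟨rfl, hb⟩ := hc
        have : ¬ b ≤ a := by
          intro h'
          have := Fin.le_def.1 h'
          omega
        rw [if_neg this, if_pos le_rfl]
        unfold jump
        rw [if_pos hb]
        linarith
      · rw [if_neg hc]
        by_cases hbx : b ≤ x
        · rw [if_pos hbx]
          refine mul_nonneg hj ?_
          split_ifs <;> norm_num
        · by_cases hax : a ≤ x
          · have hjz : jump ω a b = 0 := by
              unfold jump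
              have h3 : ¬ (b : ℕ) = a + 1 := by
                intro h'
                apply hc
                have h4 := Fin.le_def.1 hax
                have h5 : ¬ (b : ℕ) ≤ x := fun h6 => hbx (Fin.le_def.2 h6)
                have h7 : (a : ℕ) = x := by omega
                exact ⟨Fin.ext h7, by omega⟩
              have h4 : ¬ (b : ℕ) + 1 = a := by
                intro h'
                have h4 := Fin.le_def.1 hax
                have h5 : ¬ (b : ℕ) ≤ x := fun h6 => hbx (Fin.le_def.2 h6)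
                omega
              rw [if_neg h3, if_neg h4]
            rw [hjz, zero_mul]
          · rw [if_neg hax, if_neg hbx]
            simp
    · rw [dif_neg h]
      split_ifs
      · linarith [(hω x).1]
      · exact le_rfl
  calc -ω x ≤ ∑ a : Fin N, ∑ b : Fin N, (if a = x ∧ (b : ℕ) = x + 1 then -ω x else 0) := by
        rw [Finset.sum_eq_single x]
        · by_cases hb : (x : ℕ) + 1 < N
          · rw [Finset.sum_eq_single ⟨x + 1, hb⟩]
            · simp
            · intro b _ hb'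
              rw [if_neg]
              rintro ⟨_, h3⟩
              exact hb' (Fin.ext h3)
            · intro h'
              exact absurd (Finset.mem_univ _) h'
          · rw [Finset.sum_eq_zero]
            · linarith [(hω x).1]
            · intro b _
              rw [if_neg]
              rintro ⟨_, h3⟩
              have := b.2
              omega
        · intro a _ ha
          refine Finset.sum_eq_zero fun b _ => ?_
          rw [if_neg]
          rintro ⟨h3, _⟩
          exact ha h3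
        · intro h'
          exact absurd (Finset.mem_univ _) h'
    _ ≤ _ := Finset.sum_le_sum fun a _ => Finset.sum_le_sum fun b _ => h1 a b

/-- indicator of the set of the configurations without particles strictly left of `z` -/
noncomputable def emp (z : Fin N) (η : Cfg N k) : ℝ := if ∀ y ∈ η.1, z ≤ y then 1 else 0

theorem gen_emp (ω : Fin N → ℝ) (hω : ∀ y, 0 ≤ ω y ∧ ω y ≤ 1) (z : Fin N) (hz : ω z = 1)
    (η : Cfg N k) :
    -(0 : ℝ) ≤ ((gen ω : Matrix (Cfg N k) (Cfg N k) ℝ).mulVec (emp z)) η := by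
  rw [gen_mulVec, neg_zero]
  refine Finset.sum_nonneg fun a _ => Finset.sum_nonneg fun b _ => ?_
  by_cases h : a ∈ η.1 ∧ b ∉ η.1
  · rw [dif_pos h]
    have hj := jump_nonneg ω hω a b
    by_cases he : ∀ y ∈ η.1, z ≤ y
    · by_cases hb : z ≤ b
      · have : ∀ y ∈ (mv η a b h.1 h.2).1, z ≤ y := by
          intro y hy
          unfold mv at hy
          rcases Finset.mem_insert.1 hy with rfl | hy
          · exact hb
          · exact he y (Finset.mem_of_mem_erase hy)
        unfold emp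
        rw [if_pos this, if_pos he, sub_self, mul_zero]
      · have hjz : jump ω a b = 0 := by
          have ha := he a h.1
          have h3 : ¬ (b : ℕ) = a + 1 := by
            intro h'
            apply hb
            have := Fin.le_def.1 ha
            exact Fin.le_def.2 (by omega)
          unfold jump
          rw [if_neg h3]
          by_cases h4 : (b : ℕ) + 1 = a
          · rw [if_pos h4]
            have h5 : a = z := by
              have h6 := Fin.le_def.1 ha
              have h7 : ¬ (z : ℕ) ≤ b := fun h8 => hb (Fin.le_def.2 h8)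
              exact Fin.ext (by omega)
            rw [h5, hz, sub_self]
          · rw [if_neg h4]
        rw [hjz, zero_mul]
    · refine mul_nonneg hj ?_
      unfold emp
      rw [if_neg he, sub_zero]
      split_ifs <;> norm_num
  · rw [dif_neg h]

theorem tv_event (p q : Cfg N k → ℝ) (hp : ∑ ξ, p ξ = 1) (hq : ∑ ξ, q ξ = 1)
    (A : Cfg N k → Prop) [DecidablePred A] :
    ∑ ξ, p ξ * (if A ξ then 1 else 0) - ∑ ξ, q ξ * (if A ξ then 1 else 0) ≤ tv p q := by
  have h1 : 2 * (∑ ξ, p ξ * (if A ξ then (1 : ℝ) else 0) -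
      ∑ ξ, q ξ * (if A ξ then (1 : ℝ) else 0)) =
      ∑ ξ, (p ξ - q ξ) * (if A ξ then 1 else -1) := by
    have h2 : ∀ ξ, (p ξ - q ξ) * (if A ξ then (1 : ℝ) else -1) =
        2 * (p ξ * (if A ξ then (1 : ℝ) else 0)) - 2 * (q ξ * (if A ξ then (1 : ℝ) else 0)) -
          p ξ + q ξ := by
      intro ξ
      split_ifs <;> ring
    rw [Finset.sum_congr rfl fun ξ _ => h2 ξ, Finset.sum_add_distrib, Finset.sum_sub_distrib,
      Finset.sum_sub_distrib, hp, hq, ← Finset.mul_sum, ← Finset.mul_sum]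
    ring
  have h3 : ∑ ξ, (p ξ - q ξ) * (if A ξ then (1 : ℝ) else -1) ≤ ∑ ξ, |p ξ - q ξ| := by
    refine Finset.sum_le_sum fun ξ _ => ?_
    split_ifs
    · rw [mul_one]; exact le_abs_self _
    · rw [mul_neg_one]; exact neg_le_abs _
  unfold tv
  linarith

theorem tv_comm (p q : Cfg N k → ℝ) : tv p q = tv q p := by
  unfold tv
  congr 1
  exact Finset.sum_congr rfl fun ξ _ => abs_sub_comm _ _

theorem law_eq (ω : Fin N → ℝ) (t : ℝ) (η ξ : Cfg N k) : law ω t η ξ = sgr (gen ω) t η ξ := rfl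

/-- a configuration containing all the sites up to `x` -/
theorem exists_left (hk : k ≤ N) (x : Fin N) (hx : (x : ℕ) + 1 ≤ k) :
    ∃ η : Cfg N k, cnt x η = (x : ℕ) + 1 := by
  have hc : ((Finset.univ : Finset (Fin N)).filter (fun y : Fin N => (y : ℕ) < k)).card = k := by
    simp [Fin.card_filter_val_lt, hk]
  refine ⟨⟨_, hc⟩, ?_⟩
  unfold cnt
  have : (((Finset.univ : Finset (Fin N)).filter (fun y : Fin N => (y : ℕ) < k)).filter
      (fun y => y ≤ x)) = Finset.Iic x := by
    ext y
    simp only [Finset.mem_filter, Finset.mem_univ, true_and, Finset.mem_Iic]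
    constructor
    · exact fun h => h.2
    · intro h
      have := Fin.le_def.1 h
      exact ⟨by omega, h⟩
  rw [this]
  exact Fin.card_Iic x

/-- a configuration without particles left of `z` -/
theorem exists_right (z : Fin N) (hz : (z : ℕ) + k ≤ N) :
    ∃ η : Cfg N k, ∀ y ∈ η.1, z ≤ y := by
  obtain ⟨s, hs, hc⟩ := Finset.exists_subset_card_eq (s := Finset.Ici z) (n := k) (by
    rw [Fin.card_Ici]; omega)
  exact ⟨⟨s, hc⟩, fun y hy => Finset.mem_Ici.1 (hs hy)⟩

/-- THE DETERMINISTIC LOWER BOUND -/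
theorem tmix_lower (ω : Fin N → ℝ) (hω : ∀ y, 0 ≤ ω y ∧ ω y ≤ 1) (x z : Fin N) (hxz : x < z)
    (hz : ω z = 1) (hxk : (x : ℕ) + 1 ≤ k) (hzk : (z : ℕ) + k ≤ N) (hx : 0 < ω x) :
    ENNReal.ofReal (((x : ℝ) + 1) / (2 * ω x)) ≤ tmix k ω := by
  unfold tmix
  refine le_iInf fun t => le_iInf fun ht => ?_
  obtain ⟨ht, π, ⟨hπ0, hπ1, -⟩, hmix⟩ := ht
  apply ENNReal.ofReal_le_ofReal
  obtain ⟨ηL, hL⟩ := exists_left (k := k) (by omega) x hxk
  obtain ⟨ηR, hR⟩ := exists_right (k := k) z hzk
  have hoff : ∀ η ξ : Cfg N k, η ≠ ξ → 0 ≤ gen ω η ξ := fun η ξ h => gen_off ω hω η ξ h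
  have hrow : ∀ η : Cfg N k, ∑ ξ, gen ω η ξ = 0 := fun η => gen_row ω η
  -- event: no particle up to `x`
  have hsumL : ∑ ξ, law ω t ηL ξ = 1 := sgr_row (gen ω) hrow t ηL
  have hsumR : ∑ ξ, law ω t ηR ξ = 1 := sgr_row (gen ω) hrow t ηR
  have hx1 : (0 : ℝ) < (x : ℝ) + 1 := by positivity
  have h1 := sgr_lower (gen ω) hoff hrow (fun η => (cnt x η : ℝ)) (ω x)
    (fun η => gen_cnt ω hω x η) t ht ηL
  have h2 : ((sgr (gen ω) t).mulVec (fun η => (cnt x η : ℝ))) ηL ≤
      ((x : ℝ) + 1) * (1 - ∑ ξ, law ω t ηL ξ * (if cnt x ξ = 0 then (1 : ℝ) else 0)) := by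
    have hh : 1 - ∑ ξ, law ω t ηL ξ * (if cnt x ξ = 0 then (1 : ℝ) else 0) =
        ∑ ξ, (law ω t ηL ξ - law ω t ηL ξ * (if cnt x ξ = 0 then (1 : ℝ) else 0)) := by
      rw [Finset.sum_sub_distrib, hsumL]
    rw [hh, Finset.mul_sum]
    simp only [Matrix.mulVec, dotProduct]
    refine Finset.sum_le_sum fun ξ _ => ?_
    have hn : 0 ≤ sgr (gen ω) t ηL ξ := sgr_nonneg (gen ω) hoff t ht ηL ξ
    rw [law_eq]
    split_ifs with h
    · rw [h]; simp
    · have : (cnt x ξ : ℝ) ≤ (x : ℝ) + 1 := by exact_mod_cast cnt_le x ξ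
      nlinarith
  have h3 : (cnt x ηL : ℝ) = (x : ℝ) + 1 := by
    rw [hL]; push_cast; ring
  rw [h3] at h1
  have h4 := sgr_lower (gen ω) hoff hrow (emp z) 0 (fun η => gen_emp ω hω z hz η) t ht ηR
  have h5 : emp z ηR = 1 := by
    unfold emp
    rw [if_pos hR]
  have h6 : ((sgr (gen ω) t).mulVec (emp z)) ηR ≤
      ∑ ξ, law ω t ηR ξ * (if cnt x ξ = 0 then (1 : ℝ) else 0) := by
    simp only [Matrix.mulVec, dotProduct]
    refine Finset.sum_le_sum fun ξ _ => ?_
    have hn : 0 ≤ sgr (gen ω) t ηR ξ := sgr_nonneg (gen ω) hoff t ht ηR ξ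
    rw [law_eq]
    refine mul_le_mul_of_nonneg_left ?_ hn
    unfold emp
    by_cases he : ∀ y ∈ ξ.1, z ≤ y
    · have : cnt x ξ = 0 := by
        unfold cnt
        rw [Finset.card_eq_zero, Finset.filter_eq_empty_iff]
        intro y hy hyx
        exact absurd (he y hy) (not_le.2 (lt_of_le_of_lt hyx hxz))
      rw [if_pos he, if_pos this]
    · rw [if_neg he]
      split_ifs <;> norm_num
  rw [h5] at h4
  have e1 := tv_event (law ω t ηR) π hsumR hπ1 (fun ξ => cnt x ξ = 0)
  have e2 := tv_event π (law ω t ηL) hπ1 hsumL (fun ξ => cnt x ξ = 0)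
  have m1 := hmix ηR
  have m2 := hmix ηL
  rw [tv_comm] at m2
  have h7 : ((x : ℝ) + 1) * (∑ ξ, law ω t ηL ξ * (if cnt x ξ = 0 then (1 : ℝ) else 0)) ≤
      ω x * t := by nlinarith
  have h8 : (1 : ℝ) / 2 ≤ ∑ ξ, law ω t ηL ξ * (if cnt x ξ = 0 then (1 : ℝ) else 0) := by
    linarith
  have h9 : ((x : ℝ) + 1) * (1 / 2) ≤ ω x * t := by nlinarith
  rw [div_le_iff₀ (by positivity)]
  nlinarith

end Pool.Agent.R481.EX
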