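import Pool.Agent.R481.EX.Det

/-! # The law of the environment and the probability bound -/

set_option autoImplicit false

namespace Pool.Agent.R481.EX

open Finset MeasureTheory Filter Topology

/-- the weights -/
noncomputable def qr (j : ℕ) : ℝ := 1 / (2 * 4 ^ j * (((j : ℝ) + 1) * ((j : ℝ) + 2)))

/-- the slow rates -/
noncomputable def wr (j : ℕ) : ℝ := 1 / (1 + 4 ^ j)

theorem qr_pos (j : ℕ) : 0 < qr j := by unfold qr; positivity

theorem wr_pos (j : ℕ) : 0 < wr j := by unfold wr; positivity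

theorem wr_le (j : ℕ) : wr j ≤ 1 := by
  unfold wr
  rw [div_le_one (by positivity)]
  have : (0 : ℝ) < 4 ^ j := by positivity
  linarith

theorem tele (n : ℕ) : ∑ j ∈ Finset.range n, 1 / (2 * (((j : ℝ) + 1) * ((j : ℝ) + 2))) =
    1 / 2 - 1 / (2 * ((n : ℝ) + 1)) := by
  induction n with
  | zero => simp
  | succ n ih =>
    rw [Finset.sum_range_succ, ih]
    push_cast
    field_simp
    ring

theorem hasSum_tele : HasSum (fun j : ℕ => 1 / (2 * (((j : ℝ) + 1) * ((j : ℝ) + 2)))) (1 / 2) := by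
  rw [hasSum_iff_tendsto_nat_of_nonneg (fun j => by positivity)]
  simp only [tele]
  have h : Tendsto (fun n : ℕ => 1 / ((n : ℝ) + 1)) atTop (𝓝 0) :=
    tendsto_one_div_add_atTop_nhds_zero_nat
  have h2 : Tendsto (fun n : ℕ => 1 / 2 - (1 / 2 : ℝ) * (1 / ((n : ℝ) + 1))) atTop
      (𝓝 (1 / 2 - (1 / 2 : ℝ) * 0)) := tendsto_const_nhds.sub (h.const_mul _)
  rw [mul_zero, sub_zero] at h2
  refine h2.congr fun n => ?_
  field_simp

theorem tsum_tele :
    ∑' j : ℕ, ENNReal.ofReal (1 / (2 * (((j : ℝ) + 1) * ((j : ℝ) + 2)))) = 1 / 2 := by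
  rw [← ENNReal.ofReal_tsum_of_nonneg (fun j => by positivity) hasSum_tele.summable,
    hasSum_tele.tsum_eq]
  rw [ENNReal.ofReal_div_of_pos (by norm_num)]
  simp

theorem tsum_q_le : ∑' j : ℕ, ENNReal.ofReal (qr j) ≤ 1 / 2 := by
  rw [← tsum_tele]
  refine ENNReal.tsum_le_tsum fun j => ENNReal.ofReal_le_ofReal ?_
  unfold qr
  apply one_div_le_one_div_of_le (by positivity)
  have h1 : (1 : ℝ) ≤ 4 ^ j := one_le_pow₀ (by norm_num)
  have h2 : (0 : ℝ) < ((j : ℝ) + 1) * ((j : ℝ) + 2) := by positivity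
  nlinarith

/-- THE LAW of one environment variable -/
noncomputable def mu : Measure ℝ :=
  Measure.sum (fun j : ℕ => ENNReal.ofReal (qr j) • Measure.dirac (wr j)) +
    (1 - ∑' j : ℕ, ENNReal.ofReal (qr j)) • Measure.dirac 1

theorem mu_apply (s : Set ℝ) (hs : MeasurableSet s) :
    mu s = ∑' j : ℕ, ENNReal.ofReal (qr j) * s.indicator 1 (wr j) +
      (1 - ∑' j : ℕ, ENNReal.ofReal (qr j)) * s.indicator 1 1 := by
  unfold mu
  rw [Measure.add_apply, Measure.sum_apply _ hs, Measure.smul_apply, Measure.dirac_apply' _ hs]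
  congr 1
  refine tsum_congr fun j => ?_
  rw [Measure.smul_apply, Measure.dirac_apply' _ hs, smul_eq_mul]

instance mu_prob : IsProbabilityMeasure mu := by
  refine ⟨?_⟩
  rw [mu_apply _ MeasurableSet.univ]
  simp only [Set.indicator_univ, Pi.one_apply, mul_one]
  exact add_tsub_cancel_of_le (tsum_q_le.trans (by
    rw [one_div]; exact ENNReal.inv_le_one.2 (by norm_num)))

theorem mu_env : IsEnv mu := by
  refine ⟨mu_prob, ?_⟩
  have hm : MeasurableSet (Set.Icc (0 : ℝ) 1)ᶜ := measurableSet_Icc.compl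
  rw [ae_iff]
  change mu (Set.Icc (0 : ℝ) 1)ᶜ = 0
  rw [mu_apply _ hm]
  have h1 : ∀ j, (Set.Icc (0 : ℝ) 1)ᶜ.indicator (1 : ℝ → ENNReal) (wr j) = 0 := by
    intro j
    rw [Set.indicator_of_notMem]
    exact fun h => h ⟨(wr_pos j).le, wr_le j⟩
  simp [h1]

theorem mu_ballistic : Ballistic mu := by
  unfold Ballistic mu
  rw [lintegral_add_measure, lintegral_sum_measure, lintegral_smul_measure, lintegral_dirac]
  have h1 : ∀ j : ℕ, ∫⁻ w, ENNReal.ofReal (1 - w) / ENNReal.ofReal w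
      ∂(ENNReal.ofReal (qr j) • Measure.dirac (wr j)) =
      ENNReal.ofReal (1 / (2 * (((j : ℝ) + 1) * ((j : ℝ) + 2)))) := by
    intro j
    rw [lintegral_smul_measure, lintegral_dirac, smul_eq_mul,
      ← ENNReal.ofReal_div_of_pos (wr_pos j), ← ENNReal.ofReal_mul (qr_pos j).le]
    congr 1
    unfold qr wr
    field_simp
    ring
  rw [tsum_congr h1, tsum_tele]
  simp only [sub_self, ENNReal.ofReal_zero, ENNReal.zero_div, smul_zero, add_zero]
  rw [one_div]
  exact ENNReal.one_half_lt_one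

theorem mu_slow (j : ℕ) : ENNReal.ofReal (qr j) ≤ mu {wr j} := by
  rw [mu_apply _ (measurableSet_singleton _)]
  refine le_add_right ?_
  refine le_trans ?_ (ENNReal.le_tsum j)
  simp

theorem mu_one : 1 / 2 ≤ mu {(1 : ℝ)} := by
  rw [mu_apply _ (measurableSet_singleton _)]
  refine le_add_left ?_
  simp only [Set.indicator_of_mem (Set.mem_singleton (1 : ℝ)), Pi.one_apply, mul_one]
  calc (1 / 2 : ENNReal) = 1 - 1 / 2 := by
        rw [one_div]; exact ENNReal.one_sub_inv_two.symm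
    _ ≤ _ := tsub_le_tsub_left tsum_q_le 1

theorem mu_compl (s : Set ℝ) (hs : MeasurableSet s) (c : ℝ) (hc : 0 ≤ c)
    (h : ENNReal.ofReal c ≤ mu s) : mu sᶜ ≤ ENNReal.ofReal (1 - c) := by
  rw [prob_compl_eq_one_sub hs, ENNReal.ofReal_sub _ hc, ENNReal.ofReal_one]
  exact tsub_le_tsub_left h 1

/-- independence: no site of `W` has its variable in `s` -/
theorem env_none (N : ℕ) (W : Finset (Fin N)) (s : Set ℝ) :
    envLaw mu N {ω | ∀ x ∈ W, ω x ∈ s} = mu s ^ W.card := by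
  unfold envLaw
  have h1 : {ω : Fin N → ℝ | ∀ x ∈ W, ω x ∈ s} =
      Set.pi Set.univ (fun x => if x ∈ W then s else Set.univ) := by
    ext ω
    simp only [Set.mem_ofPred_eq, Set.mem_pi, Set.mem_univ, true_implies]
    constructor
    · intro h x
      split_ifs with hx
      · exact h x hx
      · trivial
    · intro h x hx
      have := h x
      rwa [if_pos hx] at this
  rw [h1, Measure.pi_pi]
  have h2 : ∀ x : Fin N, mu (if x ∈ W then s else Set.univ) = if x ∈ W then mu s else 1 := by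
    intro x
    split_ifs
    · rfl
    · exact measure_univ
  rw [Finset.prod_congr rfl fun x _ => h2 x, Finset.prod_ite_mem, Finset.univ_inter,
    Finset.prod_const]

/-- THE PROBABILITY BOUND -/
theorem mix_bound (N k n J : ℕ) (hk : 3 * n ≤ k) (hN : 3 * n + k ≤ N) (a : ℝ)
    (ha : a < ((n : ℝ) + 1) * 4 ^ J / 2) :
    mixProb mu N k a ≤ ENNReal.ofReal (2 * Real.exp (-(qr J * n))) := by
  have hq1 : qr J ≤ 1 / 2 := by
    unfold qr
    apply one_div_le_one_div_of_le (by norm_num)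
    have h1 : (1 : ℝ) ≤ 4 ^ J := one_le_pow₀ (by norm_num)
    have h2 : (1 : ℝ) ≤ ((J : ℝ) + 1) * ((J : ℝ) + 2) := by
      have : (0 : ℝ) ≤ J := by positivity
      nlinarith
    nlinarith
  have hq0 := qr_pos J
  rcases Nat.eq_zero_or_pos n with rfl | hn
  · have h1 : mixProb mu N k a ≤ 1 := by
      unfold mixProb envLaw
      exact prob_le_one
    refine h1.trans ?_
    rw [← ENNReal.ofReal_one]
    apply ENNReal.ofReal_le_ofReal
    simp
  have hn1 : n < N := by omega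
  have hn2 : 2 * n < N := by omega
  have hn3 : 3 * n < N := by omega
  obtain ⟨W1, hW1⟩ : ∃ W : Finset (Fin N), W = Finset.Ico (⟨n, hn1⟩ : Fin N) ⟨2 * n, hn2⟩ :=
    ⟨_, rfl⟩
  obtain ⟨W2, hW2⟩ : ∃ W : Finset (Fin N), W = Finset.Ico (⟨2 * n, hn2⟩ : Fin N) ⟨3 * n, hn3⟩ :=
    ⟨_, rfl⟩
  have hc1 : W1.card = n := by
    rw [hW1, Fin.card_Ico]
    simp only
    omega
  have hc2 : W2.card = n := by
    rw [hW2, Fin.card_Ico]
    simp only
    omega
  have hsub : {ω : Fin N → ℝ | tmix k ω ≤ ENNReal.ofReal a} ⊆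
      ({ω | ∀ y, ω y ∈ Set.Icc (0 : ℝ) 1}ᶜ ∪ {ω | ∀ x ∈ W1, ω x ∈ ({wr J} : Set ℝ)ᶜ}) ∪
        {ω | ∀ x ∈ W2, ω x ∈ ({1} : Set ℝ)ᶜ} := by
    intro ω hω
    by_contra hnot
    rw [Set.mem_union, Set.mem_union, not_or, not_or] at hnot
    obtain ⟨⟨h1, hx'⟩, hz'⟩ := hnot
    have h1 : ∀ y, ω y ∈ Set.Icc (0 : ℝ) 1 := by
      by_contra hcon
      exact h1 hcon
    obtain ⟨x, hx, hx2⟩ : ∃ x ∈ W1, ω x = wr J := by
      by_contra hcon
      apply hx'
      intro x hx hxx
      exact hcon ⟨x, hx, hxx⟩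
    obtain ⟨z, hz, hz2⟩ : ∃ z ∈ W2, ω z = 1 := by
      by_contra hcon
      apply hz'
      intro z hz hzz
      exact hcon ⟨z, hz, hzz⟩
    rw [hW1, Finset.mem_Ico] at hx
    rw [hW2, Finset.mem_Ico] at hz
    have hx3 : n ≤ (x : ℕ) := Fin.le_def.1 hx.1
    have hx4 : (x : ℕ) < 2 * n := Fin.lt_def.1 hx.2
    have hz3 : 2 * n ≤ (z : ℕ) := Fin.le_def.1 hz.1
    have hz4 : (z : ℕ) < 3 * n := Fin.lt_def.1 hz.2
    have hxw : ω x = wr J := hx2
    have h2 := tmix_lower (k := k) ω (fun y => h1 y) x z (Fin.lt_def.2 (by omega)) hz2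
      (by omega) (by omega) (by rw [hxw]; exact wr_pos J)
    have h3 : a < ((x : ℝ) + 1) / (2 * ω x) := by
      refine lt_of_lt_of_le ha ?_
      rw [hxw]
      have : ((x : ℝ) + 1) / (2 * wr J) = ((x : ℝ) + 1) * (1 + 4 ^ J) / 2 := by
        unfold wr
        field_simp
      rw [this]
      have h4 : (n : ℝ) ≤ (x : ℝ) := by exact_mod_cast hx3
      have h5 : (0 : ℝ) < 4 ^ J := by positivity
      have h6 : (0 : ℝ) ≤ n := by positivity
      apply div_le_div_of_nonneg_right _ (by norm_num)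
      nlinarith
    have h7 : ENNReal.ofReal (((x : ℝ) + 1) / (2 * ω x)) ≤ ENNReal.ofReal a := h2.trans hω
    have h8 : 0 < ((x : ℝ) + 1) / (2 * ω x) := by
      rw [hxw]
      have := wr_pos J
      positivity
    exact absurd h7 (not_le.2 ((ENNReal.ofReal_lt_ofReal_iff h8).2 h3))
  have hA : envLaw mu N ({ω | ∀ y, ω y ∈ Set.Icc (0 : ℝ) 1}ᶜ) = 0 := by
    have h1 : envLaw mu N {ω | ∀ y ∈ (Finset.univ : Finset (Fin N)), ω y ∈ Set.Icc (0 : ℝ) 1} =
        1 := by
      rw [env_none]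
      have : mu (Set.Icc (0 : ℝ) 1) = 1 := by
        have h3 : mu (Set.Icc (0 : ℝ) 1)ᶜ = 0 := mu_env.2
        rw [prob_compl_eq_zero_iff measurableSet_Icc] at h3
        exact h3
      rw [this, one_pow]
    have h2 : {ω : Fin N → ℝ | ∀ y ∈ (Finset.univ : Finset (Fin N)), ω y ∈ Set.Icc (0 : ℝ) 1} =
        {ω | ∀ y, ω y ∈ Set.Icc (0 : ℝ) 1} := by
      ext ω; simp
    rw [h2] at h1
    have hmeas : MeasurableSet {ω : Fin N → ℝ | ∀ y, ω y ∈ Set.Icc (0 : ℝ) 1} := by
      rw [Set.ofPred_forall]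
      exact MeasurableSet.iInter fun y => (measurable_pi_apply y) measurableSet_Icc
    have : IsProbabilityMeasure (envLaw mu N) := by
      unfold envLaw; infer_instance
    rw [prob_compl_eq_one_sub hmeas, h1, tsub_self]
  have hB : envLaw mu N {ω | ∀ x ∈ W1, ω x ∈ ({wr J} : Set ℝ)ᶜ} ≤
      ENNReal.ofReal ((1 - qr J) ^ n) := by
    rw [env_none, hc1, ENNReal.ofReal_pow (by linarith)]
    gcongr
    exact mu_compl _ (measurableSet_singleton _) _ hq0.le (mu_slow J)
  have hC : envLaw mu N {ω | ∀ x ∈ W2, ω x ∈ ({1} : Set ℝ)ᶜ} ≤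
      ENNReal.ofReal ((1 - qr J) ^ n) := by
    rw [env_none, hc2, ENNReal.ofReal_pow (by linarith)]
    gcongr
    refine mu_compl _ (measurableSet_singleton _) _ hq0.le ?_
    refine le_trans (ENNReal.ofReal_le_ofReal hq1) (le_trans (le_of_eq ?_) mu_one)
    rw [ENNReal.ofReal_div_of_pos (by norm_num)]
    simp
  have hexp : (1 - qr J) ^ n ≤ Real.exp (-(qr J * n)) := by
    have h1 : 1 - qr J ≤ Real.exp (-qr J) := by
      have := Real.add_one_le_exp (-qr J)
      linarith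
    calc (1 - qr J) ^ n ≤ (Real.exp (-qr J)) ^ n := pow_le_pow_left₀ (by linarith) h1 n
      _ = Real.exp (-(qr J * n)) := by
        rw [← Real.exp_nat_mul]
        congr 1
        ring
  unfold mixProb
  calc envLaw mu N {ω : Fin N → ℝ | tmix k ω ≤ ENNReal.ofReal a}
      ≤ envLaw mu N _ := measure_mono hsub
    _ ≤ (envLaw mu N ({ω | ∀ y, ω y ∈ Set.Icc (0 : ℝ) 1}ᶜ) +
        envLaw mu N {ω | ∀ x ∈ W1, ω x ∈ ({wr J} : Set ℝ)ᶜ}) +
        envLaw mu N {ω | ∀ x ∈ W2, ω x ∈ ({1} : Set ℝ)ᶜ} :=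
        (measure_union_le _ _).trans (add_le_add_left (measure_union_le _ _) _)
    _ ≤ (0 + ENNReal.ofReal ((1 - qr J) ^ n)) + ENNReal.ofReal ((1 - qr J) ^ n) := by
        gcongr
        exact hA.le
    _ = ENNReal.ofReal (2 * (1 - qr J) ^ n) := by
        rw [zero_add, ← ENNReal.ofReal_add (by
          have : (0 : ℝ) ≤ 1 - qr J := by linarith
          positivity) (by
          have : (0 : ℝ) ≤ 1 - qr J := by linarith
          positivity)]
        congr 1
        ring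
    _ ≤ _ := ENNReal.ofReal_le_ofReal (by linarith)

end Pool.Agent.R481.EX
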