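import Mathlib

/-! # Exponentials of generator matrices -/

set_option autoImplicit false

namespace Pool.Agent.R481.EX

open Finset

attribute [local instance] Matrix.linftyOpNormedRing Matrix.linftyOpNormedAlgebra

variable {S : Type} [Fintype S] [DecidableEq S]

/-- evaluation as a continuous linear map -/
noncomputable def evl (F : S → ℝ) (x : S) : Matrix S S ℝ →L[ℝ] ℝ :=
  LinearMap.toContinuousLinearMap
    { toFun := fun M => (M.mulVec F) x
      map_add' := fun M N => by simp [Matrix.add_mulVec]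
      map_smul' := fun c M => by simp [Matrix.smul_mulVec] }

omit [DecidableEq S] in
theorem evl_apply (F : S → ℝ) (x : S) (M : Matrix S S ℝ) : evl F x M = (M.mulVec F) x := rfl

/-- the semigroup of a matrix -/
noncomputable def sgr (Q : Matrix S S ℝ) (t : ℝ) : Matrix S S ℝ := NormedSpace.exp (t • Q)

theorem sgr_zero (Q : Matrix S S ℝ) : sgr Q 0 = 1 := by
  unfold sgr
  rw [zero_smul, NormedSpace.exp_zero]

set_option backward.isDefEq.respectTransparency false in
theorem sgr_deriv (Q : Matrix S S ℝ) (F : S → ℝ) (x : S) (t : ℝ) :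
    HasDerivAt (fun t => ((sgr Q t).mulVec F) x) (((sgr Q t).mulVec (Q.mulVec F)) x) t := by
  have h := hasDerivAt_exp_smul_const (𝕂 := ℝ) Q t
  have h2 := (evl F x).hasFDerivAt.comp_hasDerivAt t h
  have h3 : evl F x (NormedSpace.exp (t • Q) * Q) = ((sgr Q t).mulVec (Q.mulVec F)) x := by
    rw [evl_apply, ← Matrix.mulVec_mulVec]; rfl
  exact h2.congr_deriv h3

theorem pow_nonneg_mat (B : Matrix S S ℝ) (hB : ∀ x y, 0 ≤ B x y) (k : ℕ) :
    ∀ x y, 0 ≤ (B ^ k) x y := by
  induction k with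
  | zero =>
    intro x y
    rw [pow_zero, Matrix.one_apply]
    split_ifs <;> norm_num
  | succ k ih =>
    intro x y
    rw [pow_succ, Matrix.mul_apply]
    exact Finset.sum_nonneg fun z _ => mul_nonneg (ih x z) (hB z y)

theorem exp_nonneg_mat (B : Matrix S S ℝ) (hB : ∀ x y, 0 ≤ B x y) (x y : S) :
    0 ≤ (NormedSpace.exp B) x y := by
  have h1 : HasSum (fun n : ℕ => ((n.factorial : ℝ)⁻¹) • B ^ n) (NormedSpace.exp B) :=
    NormedSpace.exp_series_hasSum_exp' (𝕂 := ℝ) B
  have h2 := h1.mapL (evl (fun z => if z = y then 1 else 0) x)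
  have h3 : ∀ M : Matrix S S ℝ, evl (fun z => if z = y then (1 : ℝ) else 0) x M = M x y := by
    intro M
    rw [evl_apply]
    simp [Matrix.mulVec, dotProduct]
  simp only [h3] at h2
  refine h2.nonneg fun n => ?_
  rw [Matrix.smul_apply, smul_eq_mul]
  exact mul_nonneg (by positivity) (pow_nonneg_mat B hB n x y)

/-- the semigroup of a matrix with nonnegative off-diagonal entries is nonnegative -/
theorem sgr_nonneg (Q : Matrix S S ℝ) (hQ : ∀ x y, x ≠ y → 0 ≤ Q x y) (t : ℝ) (ht : 0 ≤ t)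
    (x y : S) : 0 ≤ sgr Q t x y := by
  obtain ⟨c, hc⟩ : ∃ c : ℝ, ∀ x, -Q x x ≤ c := by
    refine ⟨∑ z, |Q z z|, fun x => ?_⟩
    exact (neg_le_abs _).trans
      (Finset.single_le_sum (f := fun z => |Q z z|) (fun z _ => abs_nonneg _) (Finset.mem_univ x))
  obtain ⟨B, hB⟩ : ∃ B : Matrix S S ℝ, B = t • (Q + c • (1 : Matrix S S ℝ)) := ⟨_, rfl⟩
  have h1 : t • Q = Matrix.diagonal (fun _ : S => -(t * c)) + B := by
    have : Matrix.diagonal (fun _ : S => -(t * c)) = (-(t * c)) • (1 : Matrix S S ℝ) := by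
      rw [Matrix.smul_one_eq_diagonal]
    rw [this, hB, smul_add, smul_smul, neg_smul]
    abel
  have h2 : Commute (Matrix.diagonal (fun _ : S => -(t * c))) B := by
    have : Matrix.diagonal (fun _ : S => -(t * c)) = (-(t * c)) • (1 : Matrix S S ℝ) := by
      rw [Matrix.smul_one_eq_diagonal]
    rw [this]
    exact (Commute.one_left B).smul_left _
  have hBn : ∀ x y, 0 ≤ B x y := by
    intro x y
    rw [hB, Matrix.smul_apply, Matrix.add_apply, Matrix.smul_apply, Matrix.one_apply]
    refine mul_nonneg ht ?_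
    by_cases hxy : x = y
    · subst hxy
      simp only [if_true, smul_eq_mul, mul_one]
      linarith [hc x]
    · simp only [hxy, if_false, smul_zero, add_zero]
      exact hQ x y hxy
  unfold sgr
  rw [h1, Matrix.exp_add_of_commute _ _ h2, Matrix.exp_diagonal, Matrix.diagonal_mul]
  refine mul_nonneg ?_ (exp_nonneg_mat B hBn x y)
  rw [Pi.coe_exp, ← Real.exp_eq_exp_ℝ]
  exact (Real.exp_pos _).le

/-- constants are preserved -/
theorem sgr_const (Q : Matrix S S ℝ) (hr : ∀ x, ∑ y, Q x y = 0) (t : ℝ) (c : ℝ) (x : S) :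
    ((sgr Q t).mulVec (fun _ => c)) x = c := by
  have h0 : Q.mulVec (fun _ => c) = fun _ => 0 := by
    funext y
    simp only [Matrix.mulVec, dotProduct]
    rw [← Finset.sum_mul, hr, zero_mul]
  have h1 : ∀ t, HasDerivAt (fun t => ((sgr Q t).mulVec (fun _ => c)) x) 0 t := by
    intro t
    have h := sgr_deriv Q (fun _ => c) x t
    rw [h0] at h
    have h2 : ((sgr Q t).mulVec (fun _ => (0 : ℝ))) x = 0 := by
      simp [Matrix.mulVec, dotProduct]
    rwa [h2] at h
  have h2 := is_const_of_deriv_eq_zero (f := fun t => ((sgr Q t).mulVec (fun _ => c)) x)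
    (fun t => (h1 t).differentiableAt) (fun t => (h1 t).deriv) t 0
  rw [h2, sgr_zero, Matrix.one_mulVec]

theorem sgr_row (Q : Matrix S S ℝ) (hr : ∀ x, ∑ y, Q x y = 0) (t : ℝ) (x : S) :
    ∑ y, sgr Q t x y = 1 := by
  have h := sgr_const Q hr t 1 x
  simpa [Matrix.mulVec, dotProduct] using h

/-- if the generator applied to `F` is at least `-c`, then the mean of `F` is at least
`F x - c t` -/
theorem sgr_lower (Q : Matrix S S ℝ) (hQ : ∀ x y, x ≠ y → 0 ≤ Q x y)
    (hr : ∀ x, ∑ y, Q x y = 0) (F : S → ℝ) (c : ℝ) (hF : ∀ x, -c ≤ (Q.mulVec F) x)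
    (t : ℝ) (ht : 0 ≤ t) (x : S) : F x - c * t ≤ ((sgr Q t).mulVec F) x := by
  have hd : ∀ s, HasDerivAt (fun s => ((sgr Q s).mulVec F) x + c * s)
      (((sgr Q s).mulVec (Q.mulVec F)) x + c) s := by
    intro s
    have h := (sgr_deriv Q F x s).fun_add ((hasDerivAt_id' s).const_mul c)
    rw [mul_one] at h
    exact h
  have hm : MonotoneOn (fun s => ((sgr Q s).mulVec F) x + c * s) (Set.Ici 0) := by
    refine monotoneOn_of_deriv_nonneg (convex_Ici 0)
      (fun s _ => (hd s).continuousAt.continuousWithinAt)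
      (fun s _ => (hd s).differentiableAt.differentiableWithinAt) ?_
    intro s hs
    rw [interior_Ici] at hs
    rw [(hd s).deriv]
    have hs0 : 0 ≤ s := le_of_lt hs
    have h1 : ((sgr Q s).mulVec (fun _ => -c)) x ≤ ((sgr Q s).mulVec (Q.mulVec F)) x := by
      simp only [Matrix.mulVec, dotProduct]
      exact Finset.sum_le_sum fun y _ =>
        mul_le_mul_of_nonneg_left (hF y) (sgr_nonneg Q hQ s hs0 x y)
    rw [sgr_const Q hr] at h1
    linarith
  have h := hm (Set.mem_Ici.2 le_rfl) (Set.mem_Ici.2 ht) ht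
  simp only [sgr_zero, Matrix.one_mulVec, mul_zero, add_zero] at h
  linarith

end Pool.Agent.R481.EX
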